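import Mathlib
import Pool.Agent.Helper71.TG.Ab
import Pool.Agent.Helper71.ET.Reidx
import Pool.Agent.Helper71.ET.Inf

/-!
# The elliptico-toric conjecture: almost all toric points of a group of rank linear in their number

Let `Ω` be an arbitrary lattice (with arbitrary complex invariants `g₂, g₃`), with periods `ω₁, ω₂`
and quasi-periods `η₁, η₂`, let `p_1, …, p_n` be arbitrary complex numbers and let `θ_1, …, θ_q` be
further arbitrary complex numbers. Let `b_1, …, b_R` be logarithms of algebraic numbers, linearly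
independent over `ℚ`. We consider the exponents `t_l = ∑ X_lj b_j`, `l ≤ s`, with integers `X_lj`, more
generally all tuples in the space spanned by these numbers and by `2πi`.

It would follow from the elliptico-toric conjecture (for suitable `p_i`) that for almost all `X` the
`t_l` are algebraically independent over the field generated by `g₂, g₃, ω₁, ω₂, η₁, η₂, 2πi` and
`p_i, ℘(p_i), ζ(p_i)`. We prove this for the relations of total degree at most `D`, for all integral
matrices `X` with entries of absolute value at most `H` but `O(H ^ (s R - e))`, and for all rational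
matrices outside a proper algebraic subset, as soon as for every `m ≤ s`, `m ≥ 1`, there is `d ≤ m` with

`(v + m + D choose D) + m (s - m) + e ≤ d (R + 2 - d) + 1`,  `v = 7 + 3 n + q`.

For quadratic relations it suffices (with `d = m`) that `2 R ≥ 3 s + v² + 5 v + 2 e`: the rank `R` of
the group may be about `3/2` times the number `s` of the points (and about `√2` times with the best
choice of `d`). In the file `GenericToricElliptic` of the library the rank is at least
`(D + 1) ^ (5 + q + s + 2 n)`. It follows that for these `t_l` the conjecture for `(t, p)` in degree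
at most `D` is equivalent to the conjecture for `p`.

If `g₂` and `g₃` are algebraic and `Ω` has complex multiplication, `k = End(ℂ/Ω) ⊗ ℚ`, this is
combined with the theorem on the decompositions of the space `𝓔` of all elliptic logarithms: for every
`m` there are decompositions `𝓔 = Ω ⊗ ℚ ⊕ P_0 ⊕ ⋯ ⊕ P_m` into infinite dimensional summands, such
that for all `j` and all `p_1, …, p_n ∈ Ω ⊗ ℚ ⊕ ⨁_(i ≠ j) P_i`, independent over `k` modulo
`Ω ⊗ ℚ`, almost all `X` have the property: `t_l, p_i, ζ(p_i)` satisfy only trivial relations of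
degree at most `D` over `g₂, g₃, ω₁, ω₂, η₁, η₂, 2πi, θ_j`.

The proof (modules `Pool.Agent.Helper71.QC`). A violation contains a minimal one: `y'_1, …, y'_m` in
the span of `1` and the `t_l` over the algebraic numbers, independent modulo `1`, with a relation
`P(κ, y') = 0` over the constants `κ` for which `P(κ, Y)` is not identically zero, while fewer
combinations never have one. Then `P(κ, Y)` does not vanish on a line through `y'` with algebraic
direction (this is where the constants, which may satisfy relations, need care). By the hyperplane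
case of the linear subgroup theorem and the theorem on families of varieties the tuples `y'` lie in a
set of dimension at most `(v + m + D choose D) - 1 + (m - d) (R + 1) + d (d - 1)` for every `d ≤ m`
(`m - d` of the elements are treated as parameters), and a dimension count over the choices of the
combinations gives the exceptional set of the matrices.
-/

set_option autoImplicit false

open scoped PeriodPair
open Module

noncomputable section

namespace Pool.Agent.Results.MP_8da9ea_nt.AlmostAllToricPoints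

/-- The field of algebraic numbers. -/
abbrev Qbar : IntermediateField ℚ ℂ := algebraicClosure ℚ ℂ

/-- The Weierstrass zeta function
`ζ(z) = 1/z + ∑_{l ≠ 0} (1/(z - l) + 1/l + z/l²)` (in Lean `1/0 = 0`, so that the term with `l = 0`
of the sum below is `1/z`). -/
def zetaW (L : PeriodPair) (z : ℂ) : ℂ := ∑' l : L.lattice, (1 / (z - l) + 1 / l + z / l ^ 2)

/-- The quasi-period `η(ω) = ζ(z + ω) - ζ(z)` attached to `ω ∈ Ω`, computed at `z = ω₁/2`. -/
def quasi (L : PeriodPair) (ω : ℂ) : ℂ := zetaW L (L.ω₁ / 2 + ω) - zetaW L (L.ω₁ / 2)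

/-- The numbers `g₂, g₃, ω₁, ω₂, η₁, η₂, 2πi`. -/
def curve (L : PeriodPair) : Fin 7 → ℂ :=
  ![L.g₂, L.g₃, L.ω₁, L.ω₂, quasi L L.ω₁, quasi L L.ω₂, 2 * Real.pi * Complex.I]

/-- `β` belongs to the field `k = End(ℂ/Ω) ⊗ ℚ`: some multiple `m β`, `m ≥ 1`, maps the lattice `Ω`
to itself. -/
def IsMult (L : PeriodPair) (β : ℂ) : Prop :=
  ∃ m : ℕ, 0 < m ∧ ∀ ω ∈ L.lattice, (m : ℂ) * β * ω ∈ L.lattice

/-- Every polynomial relation of total degree at most `D`, with algebraic coefficients, between the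
numbers `θ` and the numbers `x` is an identity in the latter. -/
def OnlyTrivialRelations (D : ℕ) {P σ : Type} (θ : P → ℂ) (x : σ → ℂ) : Prop :=
  ∀ Q : MvPolynomial (P ⊕ σ) Qbar, Q.totalDegree ≤ D →
    MvPolynomial.aeval (Sum.elim θ x) Q = 0 →
    ∀ y : σ → ℂ, MvPolynomial.aeval (Sum.elim θ y) Q = 0

/-- The elliptic logarithms of the algebraic points, including the point at infinity. -/
def ellLogs (L : PeriodPair) : Set ℂ := {u | u ∈ L.lattice ∨ IsAlgebraic ℚ (℘[L] u)}

/-- The space `2πi ℚ`. -/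
def logPeriods : Submodule ℚ ℂ := Submodule.span ℚ {2 * Real.pi * Complex.I}

/-- The space `Ω ⊗ ℚ = ℚ ω₁ + ℚ ω₂`. -/
def ellPeriods (L : PeriodPair) : Submodule ℚ ℂ := Submodule.span ℚ {L.ω₁, L.ω₂}

/-- The rational space spanned by `2πi` and by the numbers `∑ j, X l j * b j`. -/
def group {s R : ℕ} (b : Fin R → ℂ) (X : Fin s → Fin R → ℚ) : Submodule ℚ ℂ :=
  Submodule.span ℚ (Set.range fun l => ∑ j, (X l j : ℂ) * b j) ⊔ logPeriods

/-- The numbers `t_1, …, t_r` belong to `Λ` and are independent over `ℚ` modulo `2πi ℚ`. -/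
def IndependentIn (Λ : Submodule ℚ ℂ) {r : ℕ} (t : Fin r → ℂ) : Prop :=
  (∀ l, t l ∈ Λ) ∧ ∀ b : Fin r → ℚ, ∑ l, (b l : ℂ) * t l ∈ logPeriods → b = 0

/-- The property `Q` holds for all rational `s × R` matrices outside a proper algebraic subset (over
`ℚ̄`), and for all but at most `κ H ^ (s R - e)` of the integral ones with entries of absolute value at
most `H`. -/
def AlmostAll (e : ℕ) {s R : ℕ} (Q : (Fin s → Fin R → ℚ) → Prop) : Prop :=
  (∃ Ψ : MvPolynomial (Fin s × Fin R) Qbar, Ψ ≠ 0 ∧ ∀ X : Fin s → Fin R → ℚ,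
    MvPolynomial.eval (fun p => (X p.1 p.2 : Qbar)) Ψ ≠ 0 → Q X) ∧
  ∃ κ : ℕ, ∀ H : ℕ, 1 ≤ H →
    Set.ncard {X : Fin s → Fin R → ℤ | (∀ i j, |X i j| ≤ H) ∧ ¬ Q (fun i j => (X i j : ℚ))} ≤
      κ * H ^ (s * R - e)

/-- The numerical condition. -/
def Condition (D s R v e : ℕ) : Prop :=
  s ≤ R ∧ 1 ≤ e ∧ e ≤ s * R ∧
    ∀ m, 1 ≤ m → m ≤ s → ∃ d ≤ m, (v + m + D).choose D + m * (s - m) + e ≤ d * (R + 2 - d) + 1

/-- The set `S` is the direct sum of the rational space `V` and of the infinite dimensional rational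
spaces `P_0, …, P_m`. -/
structure IsDirectSum (S : Set ℂ) (V : Submodule ℚ ℂ) {m : ℕ} (P : Fin (m + 1) → Submodule ℚ ℂ) :
    Prop where
  sum : ∀ x : ℂ, x ∈ S ↔ ∃ v ∈ V, ∃ p : Fin (m + 1) → ℂ, (∀ i, p i ∈ P i) ∧ x = v + ∑ i, p i
  unique : ∀ v ∈ V, ∀ p : Fin (m + 1) → ℂ, (∀ i, p i ∈ P i) → v + ∑ i, p i = 0 → v = 0 ∧ p = 0
  infinite : ∀ i, ¬ Module.Finite ℚ (P i)

/-- The sum of `V` and of the `P_i`, `i ≠ j`. -/
def without (V : Submodule ℚ ℂ) {m : ℕ} (P : Fin (m + 1) → Submodule ℚ ℂ) (j : Fin (m + 1)) : Set ℂ :=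
  {x | ∃ v ∈ V, ∃ p : Fin (m + 1) → ℂ, (∀ i, p i ∈ P i) ∧ p j = 0 ∧ x = v + ∑ i, p i}

open Pool.Agent.W245.EB Pool.Agent.Helper71.ET Pool.Agent.Helper71.TF

theorem swap {D : ℕ} {P σ τ : Type} {θ : P → ℂ} {x : σ → ℂ} {z : τ → ℂ}
    (h : OTR Qbar D θ (Sum.elim x z)) : OTR Qbar D θ (Sum.elim z x) := by
  have h1 := h.comp (f := Sum.swap) Sum.swap_leftInverse.injective
  have h2 : Sum.elim x z ∘ Sum.swap = Sum.elim z x := by
    funext i
    rcases i with i | i <;> rfl
  rwa [h2] at h1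

theorem AlmostAll.mono {e n R : ℕ} {Q Q' : (Fin n → Fin R → ℚ) → Prop} (h : AlmostAll e Q)
    (hQ : ∀ x, Q x → Q' x) : AlmostAll e Q' := by
  obtain ⟨⟨Ψ, hΨ, h1⟩, κ, h2⟩ := h
  refine ⟨⟨Ψ, hΨ, fun x hx => hQ x (h1 x hx)⟩, κ, fun H hH => le_trans ?_ (h2 H hH)⟩
  refine Set.ncard_le_ncard ?_ ((Pool.Agent.Helper71.TG.box_finite n R H).subset fun X hX => hX.1)
  rintro X ⟨h3, h4⟩
  exact ⟨h3, fun h5 => h4 (hQ _ h5)⟩

/-- the condition for quadratic relations -/
theorem cond_quad {s R v e : ℕ} (hs : 1 ≤ s) (he : 1 ≤ e)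
    (h : 3 * s + v ^ 2 + 5 * v + 2 * e ≤ 2 * R) : Condition 2 s R v e := by
  have hv : 0 ≤ v ^ 2 := Nat.zero_le _
  refine ⟨by omega, he, ?_, Pool.Agent.Helper71.TG.cond_two h⟩
  have h3 : R ≤ s * R := Nat.le_mul_of_pos_left _ hs
  omega

/-- **Main result.** -/
theorem result :
    -- the condition for quadratic relations
    (∀ s R v e : ℕ, 1 ≤ s → 1 ≤ e → 3 * s + v ^ 2 + 5 * v + 2 * e ≤ 2 * R → Condition 2 s R v e) ∧
    ∀ (L : PeriodPair) (D q : ℕ) (θ : Fin q → ℂ),
      -- arbitrary lattices and points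
      (∀ (n : ℕ) (p : Fin n → ℂ) (s R e : ℕ),
        Condition D s R (7 + 3 * n + q) e →
        ∀ b : Fin R → ℂ, (∀ j, IsAlgebraic ℚ (Complex.exp (b j))) → LinearIndependent ℚ b →
        AlmostAll e (fun X : Fin s → Fin R → ℚ => ∀ (r : ℕ) (t : Fin r → ℂ),
          IndependentIn (group b X) t →
            OnlyTrivialRelations D (Sum.elim (Sum.elim (curve L) θ) (Sum.elim (fun i => ℘[L] (p i))
              (Sum.elim p (fun i => zetaW L (p i))))) t ∧
            (OnlyTrivialRelations D (Sum.elim (Sum.elim (curve L) θ) (fun i => ℘[L] (p i)))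
                (Sum.elim p (fun i => zetaW L (p i))) →
              OnlyTrivialRelations D (Sum.elim (Sum.elim (curve L) θ) (fun i => ℘[L] (p i)))
                (Sum.elim t (Sum.elim p (fun i => zetaW L (p i))))))) ∧
      -- complex multiplication
      (IsAlgebraic ℚ L.g₂ → IsAlgebraic ℚ L.g₃ → 1 ≤ D →
        ∀ α : ℂ, α.im ≠ 0 → (∀ ω ∈ L.lattice, α * ω ∈ L.lattice) → ∀ m : ℕ,
        ∃ P : Fin (m + 1) → Submodule ℚ ℂ, IsDirectSum (ellLogs L) (ellPeriods L) P ∧
          (∀ i, ∀ β, IsMult L β → ∀ x ∈ P i, β * x ∈ P i) ∧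
          ∀ (j : Fin (m + 1)) (n : ℕ) (p : Fin n → ℂ),
            (∀ i, p i ∈ without (ellPeriods L) P j) →
            (∀ β : Fin n → ℂ, (∀ i, IsMult L (β i)) → ∑ i, β i * p i ∈ ellPeriods L → β = 0) →
            ∀ s R e : ℕ, Condition D s R (7 + 3 * n + q) e →
            ∀ b : Fin R → ℂ, (∀ j, IsAlgebraic ℚ (Complex.exp (b j))) → LinearIndependent ℚ b →
            AlmostAll e (fun X : Fin s → Fin R → ℚ => ∀ (r : ℕ) (t : Fin r → ℂ),
              IndependentIn (group b X) t →
                OnlyTrivialRelations D (Sum.elim (curve L) θ)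
                  (Sum.elim t (Sum.elim p (fun i => zetaW L (p i)))))) := by
  classical
  refine ⟨fun s R v e hs he h => cond_quad hs he h, ?_⟩
  intro L D q θ
  have hinf : Infinite Qbar := CharZero.infinite _
  -- the first part, with the relations over the constants
  have key : ∀ (n : ℕ) (p : Fin n → ℂ) (s R e : ℕ),
      Condition D s R (7 + 3 * n + q) e →
      ∀ b : Fin R → ℂ, (∀ j, IsAlgebraic ℚ (Complex.exp (b j))) → LinearIndependent ℚ b →
      AlmostAll e (fun X : Fin s → Fin R → ℚ => ∀ (r : ℕ) (t : Fin r → ℂ),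
      IndependentIn (group b X) t →
        OTR Qbar D (Sum.elim (Sum.elim (curve L) θ) (Sum.elim (fun i => ℘[L] (p i))
          (Sum.elim p (fun i => zetaW L (p i))))) t) := by
    intro n p s R e hcond b hb hli
    obtain ⟨hsR, he1, he, hnum⟩ := hcond
    have h6 : Fintype.card ((Fin 7 ⊕ Fin q) ⊕ (Fin n ⊕ (Fin n ⊕ Fin n))) = 7 + 3 * n + q := by
      simp only [Fintype.card_sum, Fintype.card_fin]
      ring
    have h1 := Pool.Agent.Helper71.TG.tor_ab ((Fin 7 ⊕ Fin q) ⊕ (Fin n ⊕ (Fin n ⊕ Fin n))) s R D e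
      hsR he1 he (by rw [h6]; exact hnum)
      (Sum.elim (Sum.elim (curve L) θ) (Sum.elim (fun i => ℘[L] (p i))
          (Sum.elim p (fun i => zetaW L (p i))))) (Aff.mem _ (Sum.inl (Sum.inl 6))) b hb hli
    have h2 : AlmostAll e (fun X : Fin s → Fin R → ℚ => ∀ (r : ℕ) (t : Fin r → ℂ),
      (∀ l, t l ∈ Submodule.span ℚ (Set.range (Pool.Agent.Helper71.TG.comb b X)) ⊔
        Submodule.span ℚ {(2 * Real.pi * Complex.I : ℂ)}) →
      (∀ c : Fin r → ℚ, ∑ l, (c l : ℂ) * t l ∈
        Submodule.span ℚ {(2 * Real.pi * Complex.I : ℂ)} → c = 0) →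
      OTR Qbar D (Sum.elim (Sum.elim (curve L) θ) (Sum.elim (fun i => ℘[L] (p i))
          (Sum.elim p (fun i => zetaW L (p i))))) t) := h1
    exact h2.mono fun X hX r t ht => hX r t ht.1 ht.2
  refine ⟨?_, ?_⟩
  · intro n p s R e hcond b hb hli
    refine (key n p s R e hcond b hb hli).mono fun X hX r t ht => ⟨hX r t ht, fun hp => ?_⟩
    refine swap (OTR.extend (κ := Qbar) hp (hX r t ht) ?_ ?_)
    · rintro (i | i)
      · exact Aff.mem _ (Sum.inl i)
      · exact Aff.mem _ (Sum.inr (Sum.inl i))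
    · intro i
      exact Aff.mem _ (Sum.inr (Sum.inr i))
  · intro h2 h3 hD α hα hm m
    set Θ : Fin 7 ⊕ Fin q → ℂ := Sum.elim (curve L) θ with hΘ
    have hω₁ : L.ω₁ ∈ Aff Qbar Θ := Aff.mem Θ (Sum.inl 2)
    have hω₂ : L.ω₂ ∈ Aff Qbar Θ := Aff.mem Θ (Sum.inl 3)
    have hη₁ : H667R3.eta L L.ω₁ ∈ Aff Qbar Θ := Aff.mem Θ (Sum.inl 4)
    have hη₂ : H667R3.eta L L.ω₂ ∈ Aff Qbar Θ := Aff.mem Θ (Sum.inl 5)
    have hπ : (2 * Real.pi * Complex.I : ℂ) ∈ Aff Qbar Θ := Aff.mem Θ (Sum.inl 6)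
    have hα0 : α ≠ 0 := by
      rintro rfl
      exact hα (by simp)
    obtain ⟨N, κ', hN, hκ, hrel⟩ := zt_mul h2 h3 hα0 hm
    have hαQ : α ∈ QB := mem_QB.2 (alg_of_mul hm)
    have hne : α - N / α ≠ 0 := sub_ne_zero.2 (ne_conj hα hN).symm
    set a₀ : ℂ := κ' / (α - N / α) with ha₀
    have ha₀Q : a₀ ∈ QB := div_mem hκ (sub_mem hαQ (div_mem (natCast_mem _ _) hαQ))
    have ha₀e : a₀ * (α - N / α) = κ' := div_mul_cancel₀ _ hne
    obtain ⟨T, P, hT, hP, hmul, hfree⟩ := exists_final h2 h3 (EL_not_finite h2 h3) (MF.cm hα hm)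
      (s := sB) (ρ := rB a₀) (by
        intro i
        cases i
        · exact zero_mem _
        · exact one_mem _) (by
        intro i
        cases i
        · exact one_mem _
        · exact neg_mem ha₀Q) (χ := chiB L) (chiB_semi h2 h3 hα hm hN hκ hrel ha₀e)
      hD
      (fun E₁ E₂ hE₁ hE₂ => gen_cm h2 h3 hα hm (MF.cm hα hm) ha₀Q D E₁ E₂ hE₁ hE₂)
      hπ hω₁ hω₂ hη₁ hη₂ m
    refine ⟨P, ⟨hP.sum, hP.unique, hP.inf⟩, fun i β hβ x hx => hmul i β hβ x hx, ?_⟩
    intro j n p hp hpi s R e hcond b hb hli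
    refine (key n p s R e hcond b hb hli).mono fun X hX r t ht => ?_
    have h4 := otr_cm ha₀Q (hfree j 0 Fin.elim0 n p (fun l => l.elim0) hp
      (fun b _ => funext fun l => l.elim0) hpi)
    have h8 : (fun i => zetaW L (p i)) = fun i => zt L (p i) := by
      funext i
      rw [zt_of_notMem (notMem_of (rat_indep hpi) i)]
      rfl
    have h5 : OTR Qbar D Θ (Sum.elim p (fun i => zetaW L (p i))) := by
      rw [h8]
      exact h4.comp (f := Sum.inr) Sum.inr_injective
    refine swap (OTR.extend (κ := Qbar) h5 (hX r t ht) ?_ ?_)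
    · intro i
      exact Aff.mem _ (Sum.inl i)
    · intro i
      exact Aff.mem _ (Sum.inr (Sum.inr i))

end Pool.Agent.Results.MP_8da9ea_nt.AlmostAllToricPoints
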