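import Mathlib
import Pool.Agent.Helper71.ET.Reidx
import Pool.Agent.Helper71.ET.Inf

/-!
# The elliptico-toric conjecture in bounded degree: any `m` of `m + 1` summands

Let `Ω` be a lattice with algebraic invariants `g₂, g₃`, `k = End(ℂ/Ω) ⊗ ℚ`, with periods `ω₁, ω₂`
and quasi-periods `η₁, η₂`, and let `θ_1, …, θ_q` be arbitrary complex numbers. Let `𝓛` be the
rational space of all logarithms of algebraic numbers (`t` with `e^t` algebraic), and `𝓔` the
`k`-space of all elliptic logarithms of algebraic points (`p` with `℘(p)` algebraic, or `p ∈ Ω`).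
For `t_l ∈ 𝓛`, independent over `ℚ` modulo `2πi ℚ`, and `p_i ∈ 𝓔`, independent over `k` modulo
`Ω ⊗ ℚ`, the elliptico-toric conjecture says that `t_l, p_i, ζ(p_i)` are algebraically independent
over `ℚ̄(ω₁, ω₂, η₁, η₂, 2πi)` (and it gives also the transcendence degree of this field).

We prove this in any bounded degree, for the points which avoid one of `m + 1` summands: if `Ω` has
complex multiplication, then for all `D, m` and `θ` there are decompositions into direct sums of
infinite dimensional spaces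

  `𝓛 = 2πi ℚ ⊕ T_0 ⊕ ⋯ ⊕ T_m`,    `𝓔 = Ω ⊗ ℚ ⊕ P_0 ⊕ ⋯ ⊕ P_m`

such that for every `j` and for **all** `s, n`, all `t_1, …, t_s ∈ 2πi ℚ ⊕ ⨁_(i ≠ j) T_i` independent
over `ℚ` modulo `2πi ℚ` and all `p_1, …, p_n ∈ Ω ⊗ ℚ ⊕ ⨁_(i ≠ j) P_i` independent over `k` modulo
`Ω ⊗ ℚ`, every polynomial relation of degree at most `D` with algebraic coefficients between
`ω₁, ω₂, η₁, η₂, 2πi, θ_1, …, θ_q` and the `s + 2 n` numbers `t_l`, `p_i`, `ζ(p_i)` is trivial: it is
a consequence of relations between `ω₁, ω₂, η₁, η₂, 2πi, θ_1, …, θ_q`. For `m = 1`: `𝓛` and `𝓔` are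
sums of two spaces for which the conjecture is true in degree at most `D`. For lattices without
complex multiplication (`k = ℚ`) we prove the same for the `s + n` numbers `t_l`,
`σ ζ(p_i) + ρ p_i`, for given algebraic numbers `σ, ρ` which are not both zero (for instance, for
`p_i`, or for `ζ(p_i)`).

The proof. The spaces are constructed as unions of increasing sequences of finite dimensional spaces.
Suppose that `T_i`, `P_i` are finite dimensional and that we want to add the elements `τ` and `π` of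
`𝓛` and `𝓔` to their sums. We write `τ = τ_0 + ⋯ + τ_m` and `π = π_0 + ⋯ + π_m`, with
`τ_1, …, τ_m`, `π_1, …, π_m` generic over the field generated by the given numbers and by all
logarithms, elliptic logarithms and values of `ζ` of the spaces constructed so far: that is, they
satisfy no nontrivial relation of degree at most `D` over it. This is possible by the theorem on
generic points of `Pool.Agent.W245.EB`, which contains complete formalizations of the theorems on
linear forms in logarithms, elliptic logarithms and integrals of the second kind (theorem of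
Schneider and Lang on Cartesian products) and of the action of complex multiplication on `ζ`. We
need that `𝓔` is a `k`-space, that is, that division preserves algebraic points, and that it has
infinite dimension. For the latter we take a point `u` such that `℘(u)` is in a given number field `K`
and has an odd and very negative valuation at a prime above `2`; the formula for `℘(2 u)` shows that
`u` is not a torsion point, and as `℘'(u)^2` is not a square in `K`, no multiple of `u` is defined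
over `K`.
-/

set_option autoImplicit false

open scoped PeriodPair

noncomputable section

namespace Pool.Agent.Results.MP_8da9ea_nt.GoodDecompositions

/-- The field of algebraic numbers. -/
abbrev Qbar : IntermediateField ℚ ℂ := algebraicClosure ℚ ℂ

/-- The Weierstrass zeta function
`ζ(z) = 1/z + ∑_{l ≠ 0} (1/(z - l) + 1/l + z/l²)` (in Lean `1/0 = 0`, so that the term with `l = 0`
of the sum below is `1/z`). -/
def zetaW (L : PeriodPair) (z : ℂ) : ℂ := ∑' l : L.lattice, (1 / (z - l) + 1 / l + z / l ^ 2)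

/-- The quasi-period `η(ω) = ζ(z + ω) - ζ(z)` attached to `ω ∈ Ω`, computed at `z = ω₁/2`. -/
def quasi (L : PeriodPair) (ω : ℂ) : ℂ := zetaW L (L.ω₁ / 2 + ω) - zetaW L (L.ω₁ / 2)

/-- The numbers `ω₁, ω₂, η₁, η₂, 2πi`. -/
def periodsOf (L : PeriodPair) : Fin 5 → ℂ :=
  ![L.ω₁, L.ω₂, quasi L L.ω₁, quasi L L.ω₂, 2 * Real.pi * Complex.I]

/-- `β` belongs to the field `k = End(ℂ/Ω) ⊗ ℚ`: some multiple `m β`, `m ≥ 1`, maps the lattice `Ω`
to itself. -/
def IsMult (L : PeriodPair) (β : ℂ) : Prop :=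
  ∃ m : ℕ, 0 < m ∧ ∀ ω ∈ L.lattice, (m : ℂ) * β * ω ∈ L.lattice

/-- Every polynomial relation of total degree at most `D`, with algebraic coefficients, between the
numbers `θ` and the numbers `x` is an identity in the latter. -/
def OnlyTrivialRelations (D : ℕ) {P σ : Type} (θ : P → ℂ) (x : σ → ℂ) : Prop :=
  ∀ Q : MvPolynomial (P ⊕ σ) Qbar, Q.totalDegree ≤ D →
    MvPolynomial.aeval (Sum.elim θ x) Q = 0 →
    ∀ y : σ → ℂ, MvPolynomial.aeval (Sum.elim θ y) Q = 0

/-- The logarithms of the nonzero algebraic numbers. -/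
def logs : Set ℂ := {t | IsAlgebraic ℚ (Complex.exp t)}

/-- The elliptic logarithms of the algebraic points, including the point at infinity. -/
def ellLogs (L : PeriodPair) : Set ℂ := {u | u ∈ L.lattice ∨ IsAlgebraic ℚ (℘[L] u)}

/-- The space `2πi ℚ`. -/
def logPeriods : Submodule ℚ ℂ := Submodule.span ℚ {2 * Real.pi * Complex.I}

/-- The space `Ω ⊗ ℚ = ℚ ω₁ + ℚ ω₂`. -/
def ellPeriods (L : PeriodPair) : Submodule ℚ ℂ := Submodule.span ℚ {L.ω₁, L.ω₂}

/-- The set `S` is the direct sum of the rational space `V` and of the infinite dimensional rational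
spaces `P_0, …, P_m`. -/
structure IsDirectSum (S : Set ℂ) (V : Submodule ℚ ℂ) {m : ℕ} (P : Fin (m + 1) → Submodule ℚ ℂ) :
    Prop where
  sum : ∀ x : ℂ, x ∈ S ↔ ∃ v ∈ V, ∃ p : Fin (m + 1) → ℂ, (∀ i, p i ∈ P i) ∧ x = v + ∑ i, p i
  unique : ∀ v ∈ V, ∀ p : Fin (m + 1) → ℂ, (∀ i, p i ∈ P i) → v + ∑ i, p i = 0 → v = 0 ∧ p = 0
  infinite : ∀ i, ¬ Module.Finite ℚ (P i)

/-- The sum of `V` and of the `P_i`, `i ≠ j`. -/
def without (V : Submodule ℚ ℂ) {m : ℕ} (P : Fin (m + 1) → Submodule ℚ ℂ) (j : Fin (m + 1)) : Set ℂ :=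
  {x | ∃ v ∈ V, ∃ p : Fin (m + 1) → ℂ, (∀ i, p i ∈ P i) ∧ p j = 0 ∧ x = v + ∑ i, p i}

open Pool.Agent.W245.EB Pool.Agent.Helper71.ET

/-- **Main result.** -/
theorem result (L : PeriodPair) (h2 : IsAlgebraic ℚ L.g₂) (h3 : IsAlgebraic ℚ L.g₃)
    (D q m : ℕ) (θ : Fin q → ℂ) :
    -- complex multiplication
    (∀ α : ℂ, α.im ≠ 0 → (∀ ω ∈ L.lattice, α * ω ∈ L.lattice) →
      ∃ T P : Fin (m + 1) → Submodule ℚ ℂ, IsDirectSum logs logPeriods T ∧
        IsDirectSum (ellLogs L) (ellPeriods L) P ∧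
        (∀ i, ∀ β, IsMult L β → ∀ x ∈ P i, β * x ∈ P i) ∧
        ∀ (j : Fin (m + 1)) (s n : ℕ) (t : Fin s → ℂ) (p : Fin n → ℂ),
          (∀ l, t l ∈ without logPeriods T j) → (∀ i, p i ∈ without (ellPeriods L) P j) →
          (∀ b : Fin s → ℚ, ∑ l, (b l : ℂ) * t l ∈ logPeriods → b = 0) →
          (∀ β : Fin n → ℂ, (∀ i, IsMult L (β i)) → ∑ i, β i * p i ∈ ellPeriods L → β = 0) →
          OnlyTrivialRelations D (Sum.elim (periodsOf L) θ)
            (Sum.elim t (Sum.elim p (fun i => zetaW L (p i))))) ∧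
    -- lattices without complex multiplication
    ((∀ α : ℂ, (∀ ω ∈ L.lattice, α * ω ∈ L.lattice) → α.im = 0) →
      ∀ σ ρ : ℂ, IsAlgebraic ℚ σ → IsAlgebraic ℚ ρ → (σ ≠ 0 ∨ ρ ≠ 0) →
      ∃ T P : Fin (m + 1) → Submodule ℚ ℂ, IsDirectSum logs logPeriods T ∧
        IsDirectSum (ellLogs L) (ellPeriods L) P ∧
        ∀ (j : Fin (m + 1)) (s n : ℕ) (t : Fin s → ℂ) (p : Fin n → ℂ),
          (∀ l, t l ∈ without logPeriods T j) → (∀ i, p i ∈ without (ellPeriods L) P j) →
          (∀ b : Fin s → ℚ, ∑ l, (b l : ℂ) * t l ∈ logPeriods → b = 0) →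
          (∀ b : Fin n → ℚ, ∑ i, (b i : ℂ) * p i ∈ ellPeriods L → b = 0) →
          OnlyTrivialRelations D (Sum.elim (periodsOf L) θ)
            (Sum.elim t (fun i => σ * zetaW L (p i) + ρ * p i))) := by
  classical
  set Θ : Fin 5 ⊕ Fin q → ℂ := Sum.elim (periodsOf L) θ with hΘ
  have hω₁ : L.ω₁ ∈ Aff Qbar Θ := Aff.mem Θ (Sum.inl 0)
  have hω₂ : L.ω₂ ∈ Aff Qbar Θ := Aff.mem Θ (Sum.inl 1)
  have hη₁ : H667R3.eta L L.ω₁ ∈ Aff Qbar Θ := Aff.mem Θ (Sum.inl 2)
  have hη₂ : H667R3.eta L L.ω₂ ∈ Aff Qbar Θ := Aff.mem Θ (Sum.inl 3)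
  have hπ : (2 * Real.pi * Complex.I : ℂ) ∈ Aff Qbar Θ := Aff.mem Θ (Sum.inl 4)
  have hD : 1 ≤ max D 1 := le_max_right _ _
  refine ⟨?_, ?_⟩
  · intro α hα hm
    have hα0 : α ≠ 0 := by
      rintro rfl
      exact hα (by simp)
    obtain ⟨N, κ', hN, hκ, hrel⟩ := zt_mul h2 h3 hα0 hm
    have hαQ : α ∈ QB := mem_QB.2 (alg_of_mul hm)
    have hne : α - N / α ≠ 0 := sub_ne_zero.2 (ne_conj hα hN).symm
    set a₀ : ℂ := κ' / (α - N / α) with ha₀
    have ha₀Q : a₀ ∈ QB := div_mem hκ (sub_mem hαQ (div_mem (natCast_mem _ _) hαQ))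
    have ha₀e : a₀ * (α - N / α) = κ' := div_mul_cancel₀ _ hne
    obtain ⟨T, P, hT, hP, hmul, hfree⟩ := exists_final h2 h3 (EL_not_finite h2 h3) (MF.cm hα hm)
      (s := sB) (ρ := rB a₀) (by
        intro i
        cases i
        · exact zero_mem _
        · exact one_mem _) (by
        intro i
        cases i
        · exact one_mem _
        · exact neg_mem ha₀Q) (χ := chiB L) (chiB_semi h2 h3 hα hm hN hκ hrel ha₀e) hD
      (fun E₁ E₂ hE₁ hE₂ => gen_cm h2 h3 hα hm (MF.cm hα hm) ha₀Q (max D 1) E₁ E₂ hE₁ hE₂)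
      hπ hω₁ hω₂ hη₁ hη₂ m
    refine ⟨T, P, ⟨hT.sum, hT.unique, hT.inf⟩, ⟨hP.sum, hP.unique, hP.inf⟩,
      fun i β hβ x hx => hmul i β hβ x hx, ?_⟩
    intro j s n t p ht hp hti hpi
    have h4 := otr_cm ha₀Q (hfree j s t n p ht hp hti hpi)
    have h8 : (fun i => zetaW L (p i)) = fun i => zt L (p i) := by
      funext i
      rw [zt_of_notMem (notMem_of (rat_indep hpi) i)]
      rfl
    rw [h8]
    intro Q hQ h0 y
    exact h4 Q (hQ.trans (le_max_left _ _)) h0 y
  · intro hre σ ρ hσ hρ hσρ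
    have hσQ := mem_QB.2 hσ
    have hρQ := mem_QB.2 hρ
    have hF : MF L ℚ := MF.rat (fun β hβ => by
      obtain ⟨c, hc, h⟩ := hβ
      have h1 := hre _ h
      rw [Complex.mul_im, Complex.natCast_re, Complex.natCast_im, zero_mul, add_zero] at h1
      exact (mul_eq_zero.1 h1).resolve_left (by exact_mod_cast hc.ne'))
    obtain ⟨T, P, hT, hP, -, hfree⟩ := exists_final h2 h3 (EL_not_finite h2 h3) hF
      (s := fun _ : Unit => σ) (ρ := fun _ => ρ) (fun _ => hσQ) (fun _ => hρQ)
      (χ := fun _ => algebraMap ℚ Qbar) (fun _ => rat_semi h2 h3 hσQ hF) hD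
      (fun E₁ E₂ hE₁ hE₂ => gen_rat h2 h3 hF hσQ hρQ hσρ (max D 1) E₁ E₂ hE₁ hE₂)
      hπ hω₁ hω₂ hη₁ hη₂ m
    refine ⟨T, P, ⟨hT.sum, hT.unique, hT.inf⟩, ⟨hP.sum, hP.unique, hP.inf⟩, ?_⟩
    intro j s n t p ht hp hti hpi
    have hpi' : ∀ β : Fin n → ℂ, (∀ i, β i ∈ kL L) →
        ∑ i, β i * p i ∈ Submodule.span ℚ {L.ω₁, L.ω₂} → β = 0 := by
      intro β hβ h
      choose b hb using fun i => hF.surj (β i) (hβ i)
      have h1 := hpi b (by
        have h4 : ∀ i, (b i : ℂ) = β i := fun i => by rw [← hb i, eq_ratCast]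
        simp only [h4]
        exact h)
      funext i
      rw [← hb i, h1, Pi.zero_apply, map_zero]
      rfl
    have h4 := otr_rat (hfree j s t n p ht hp hti hpi')
    have h8 : (fun i => σ * zetaW L (p i) + ρ * p i) = fun i => σ * zt L (p i) + ρ * p i := by
      funext i
      rw [zt_of_notMem (notMem_of hpi i)]
      rfl
    rw [h8]
    intro Q hQ h0 y
    exact h4 Q (hQ.trans (le_max_left _ _)) h0 y

end Pool.Agent.Results.MP_8da9ea_nt.GoodDecompositions
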