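import Mathlib
import Pool.Agent.Helper71.TF.Tor
import Pool.Agent.Helper71.ET.Reidx
import Pool.Agent.Helper71.ET.Inf

/-!
# The elliptico-toric conjecture: the toric part in bounded degree, up to finite codimension

Let `Ω` be an arbitrary lattice (with arbitrary complex invariants `g₂, g₃`), with periods `ω₁, ω₂`
and quasi-periods `η₁, η₂`, let `p_1, …, p_n` be arbitrary complex numbers and let `θ_1, …, θ_q` be
further arbitrary complex numbers. Let `𝓛` be the rational space of ALL logarithms of algebraic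
numbers (`t` with `e^t` algebraic). For `t_1, …, t_r ∈ 𝓛`, independent over `ℚ` modulo `2πi ℚ`, it
would follow from the elliptico-toric conjecture (for suitable `p_i`) that the `t_l` are algebraically
independent over the field generated by `g₂, g₃, ω₁, ω₂, η₁, η₂, p_i, ℘(p_i), ζ(p_i)`.

We prove this up to any degree `D ≥ 2`, and for any number `s ≥ r` of logarithms, for all `t_l` in a
space `Λ ∋ 2πi` of **finite codimension** in `𝓛`: there is `Λ` with a complement of dimension at most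
`(D + 7 + 3 n + q choose D) (D + s choose s) - 2 s` such that for all `t_1, …, t_r ∈ Λ`, `r ≤ s`,
independent over `ℚ` modulo `2πi ℚ`, every relation of degree at most `D` with algebraic coefficients
between `g₂, g₃, ω₁, ω₂, η₁, η₂, 2πi, θ_j, p_i, ℘(p_i), ζ(p_i)` and `t_1, …, t_r` is trivial, that
is, an identity in `t_1, …, t_r`. It follows that for these `t_l` the conjecture for `(t, p)` in
degree at most `D` is equivalent to the conjecture for `p`: if `p_i, ζ(p_i)` satisfy only trivial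
relations of degree at most `D` over the numbers `g₂, g₃, ω₁, ω₂, η₁, η₂, 2πi, θ_j, ℘(p_i)`, then so
do the `r + 2 n` numbers `t_l, p_i, ζ(p_i)`.

If `g₂` and `g₃` are algebraic and `Ω` has complex multiplication, `k = End(ℂ/Ω) ⊗ ℚ`, this can be
combined with the theorem on the decompositions of the space `𝓔` of all elliptic logarithms: for every
`m` there are decompositions `𝓔 = Ω ⊗ ℚ ⊕ P_0 ⊕ ⋯ ⊕ P_m` into infinite dimensional summands, such
that for all `j`, `n` and all `p_1, …, p_n ∈ Ω ⊗ ℚ ⊕ ⨁_(i ≠ j) P_i`, independent over `k` modulo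
`Ω ⊗ ℚ`, there is a space `Λ` as above of finite codimension in `𝓛` such that all `t_1, …, t_r ∈ Λ`,
`r ≤ s`, independent modulo `2πi ℚ`, have the property: `t_l, p_i, ζ(p_i)` satisfy only trivial
relations of degree at most `D` over `g₂, g₃, ω₁, ω₂, η₁, η₂, 2πi, θ_j`.

The proof uses the theorem on finite codimension of `Pool.Agent.Helper71.FC` (it depends on the
hyperplane case of the linear subgroup theorem, and on a computation of the dimension of the variety
of the tuples of linear forms in logarithms, with algebraic coefficients, which satisfy a relation of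
degree at most `D` with coefficients in a space of finite dimension), for the space spanned by the
monomials of degree at most `D` in the constants.
-/

set_option autoImplicit false

open scoped PeriodPair
open Module

noncomputable section

namespace Pool.Agent.Results.MP_8da9ea_nt.ToricFiniteCodimension

/-- The field of algebraic numbers. -/
abbrev Qbar : IntermediateField ℚ ℂ := algebraicClosure ℚ ℂ

/-- The Weierstrass zeta function
`ζ(z) = 1/z + ∑_{l ≠ 0} (1/(z - l) + 1/l + z/l²)` (in Lean `1/0 = 0`, so that the term with `l = 0`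
of the sum below is `1/z`). -/
def zetaW (L : PeriodPair) (z : ℂ) : ℂ := ∑' l : L.lattice, (1 / (z - l) + 1 / l + z / l ^ 2)

/-- The quasi-period `η(ω) = ζ(z + ω) - ζ(z)` attached to `ω ∈ Ω`, computed at `z = ω₁/2`. -/
def quasi (L : PeriodPair) (ω : ℂ) : ℂ := zetaW L (L.ω₁ / 2 + ω) - zetaW L (L.ω₁ / 2)

/-- The numbers `g₂, g₃, ω₁, ω₂, η₁, η₂, 2πi`. -/
def curve (L : PeriodPair) : Fin 7 → ℂ :=
  ![L.g₂, L.g₃, L.ω₁, L.ω₂, quasi L L.ω₁, quasi L L.ω₂, 2 * Real.pi * Complex.I]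

/-- `β` belongs to the field `k = End(ℂ/Ω) ⊗ ℚ`: some multiple `m β`, `m ≥ 1`, maps the lattice `Ω`
to itself. -/
def IsMult (L : PeriodPair) (β : ℂ) : Prop :=
  ∃ m : ℕ, 0 < m ∧ ∀ ω ∈ L.lattice, (m : ℂ) * β * ω ∈ L.lattice

/-- Every polynomial relation of total degree at most `D`, with algebraic coefficients, between the
numbers `θ` and the numbers `x` is an identity in the latter. -/
def OnlyTrivialRelations (D : ℕ) {P σ : Type} (θ : P → ℂ) (x : σ → ℂ) : Prop :=
  ∀ Q : MvPolynomial (P ⊕ σ) Qbar, Q.totalDegree ≤ D →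
    MvPolynomial.aeval (Sum.elim θ x) Q = 0 →
    ∀ y : σ → ℂ, MvPolynomial.aeval (Sum.elim θ y) Q = 0

/-- The logarithms of the nonzero algebraic numbers. -/
def logs : Set ℂ := {t | IsAlgebraic ℚ (Complex.exp t)}

/-- The elliptic logarithms of the algebraic points, including the point at infinity. -/
def ellLogs (L : PeriodPair) : Set ℂ := {u | u ∈ L.lattice ∨ IsAlgebraic ℚ (℘[L] u)}

/-- The space `2πi ℚ`. -/
def logPeriods : Submodule ℚ ℂ := Submodule.span ℚ {2 * Real.pi * Complex.I}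

/-- The space `Ω ⊗ ℚ = ℚ ω₁ + ℚ ω₂`. -/
def ellPeriods (L : PeriodPair) : Submodule ℚ ℂ := Submodule.span ℚ {L.ω₁, L.ω₂}

/-- `Λ` is a space of logarithms of algebraic numbers, with `2πi ∈ Λ`, which has a complement of
dimension at most `c` in the space of all logarithms. -/
def IsLarge (c : ℕ) (Λ : Submodule ℚ ℂ) : Prop :=
  2 * Real.pi * Complex.I ∈ Λ ∧ ∃ U : Submodule ℚ ℂ, ((Λ ⊔ U : Submodule ℚ ℂ) : Set ℂ) = logs ∧
    Module.Finite ℚ U ∧ finrank ℚ U ≤ c

/-- The bound for the codimension. -/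
def bound (D n q s : ℕ) : ℕ := (D + (7 + 3 * n + q)).choose D * (D + s).choose s - 2 * s

/-- The numbers `t_1, …, t_r` belong to `Λ` and are independent over `ℚ` modulo `2πi ℚ`. -/
def IndependentIn (Λ : Submodule ℚ ℂ) {r : ℕ} (t : Fin r → ℂ) : Prop :=
  (∀ l, t l ∈ Λ) ∧ ∀ b : Fin r → ℚ, ∑ l, (b l : ℂ) * t l ∈ logPeriods → b = 0

/-- The set `S` is the direct sum of the rational space `V` and of the infinite dimensional rational
spaces `P_0, …, P_m`. -/
structure IsDirectSum (S : Set ℂ) (V : Submodule ℚ ℂ) {m : ℕ} (P : Fin (m + 1) → Submodule ℚ ℂ) :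
    Prop where
  sum : ∀ x : ℂ, x ∈ S ↔ ∃ v ∈ V, ∃ p : Fin (m + 1) → ℂ, (∀ i, p i ∈ P i) ∧ x = v + ∑ i, p i
  unique : ∀ v ∈ V, ∀ p : Fin (m + 1) → ℂ, (∀ i, p i ∈ P i) → v + ∑ i, p i = 0 → v = 0 ∧ p = 0
  infinite : ∀ i, ¬ Module.Finite ℚ (P i)

/-- The sum of `V` and of the `P_i`, `i ≠ j`. -/
def without (V : Submodule ℚ ℂ) {m : ℕ} (P : Fin (m + 1) → Submodule ℚ ℂ) (j : Fin (m + 1)) : Set ℂ :=
  {x | ∃ v ∈ V, ∃ p : Fin (m + 1) → ℂ, (∀ i, p i ∈ P i) ∧ p j = 0 ∧ x = v + ∑ i, p i}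

open Pool.Agent.W245.EB Pool.Agent.Helper71.ET Pool.Agent.Helper71.TF

theorem swap {D : ℕ} {P σ τ : Type} {θ : P → ℂ} {x : σ → ℂ} {z : τ → ℂ}
    (h : OTR Qbar D θ (Sum.elim x z)) : OTR Qbar D θ (Sum.elim z x) := by
  have h1 := h.comp (f := Sum.swap) Sum.swap_leftInverse.injective
  have h2 : Sum.elim x z ∘ Sum.swap = Sum.elim z x := by
    funext i
    rcases i with i | i <;> rfl
  rwa [h2] at h1

/-- **Main result.** -/
theorem result (L : PeriodPair) (D s q : ℕ) (hD : 2 ≤ D) (θ : Fin q → ℂ) :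
    -- arbitrary lattices and points
    (∀ (n : ℕ) (p : Fin n → ℂ), ∃ Λ : Submodule ℚ ℂ, IsLarge (bound D n q s) Λ ∧
      ∀ r ≤ s, ∀ t : Fin r → ℂ, IndependentIn Λ t →
        OnlyTrivialRelations D (Sum.elim (Sum.elim (curve L) θ) (Sum.elim (fun i => ℘[L] (p i))
          (Sum.elim p (fun i => zetaW L (p i))))) t ∧
        (OnlyTrivialRelations D (Sum.elim (Sum.elim (curve L) θ) (fun i => ℘[L] (p i)))
            (Sum.elim p (fun i => zetaW L (p i))) →
          OnlyTrivialRelations D (Sum.elim (Sum.elim (curve L) θ) (fun i => ℘[L] (p i)))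
            (Sum.elim t (Sum.elim p (fun i => zetaW L (p i)))))) ∧
    -- complex multiplication
    (IsAlgebraic ℚ L.g₂ → IsAlgebraic ℚ L.g₃ →
      ∀ α : ℂ, α.im ≠ 0 → (∀ ω ∈ L.lattice, α * ω ∈ L.lattice) → ∀ m : ℕ,
      ∃ P : Fin (m + 1) → Submodule ℚ ℂ, IsDirectSum (ellLogs L) (ellPeriods L) P ∧
        (∀ i, ∀ β, IsMult L β → ∀ x ∈ P i, β * x ∈ P i) ∧
        ∀ (j : Fin (m + 1)) (n : ℕ) (p : Fin n → ℂ),
          (∀ i, p i ∈ without (ellPeriods L) P j) →
          (∀ β : Fin n → ℂ, (∀ i, IsMult L (β i)) → ∑ i, β i * p i ∈ ellPeriods L → β = 0) →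
          ∃ Λ : Submodule ℚ ℂ, IsLarge (bound D n q s) Λ ∧
            ∀ r ≤ s, ∀ t : Fin r → ℂ, IndependentIn Λ t →
              OnlyTrivialRelations D (Sum.elim (curve L) θ)
                (Sum.elim t (Sum.elim p (fun i => zetaW L (p i))))) := by
  classical
  have hinf : Infinite Qbar := CharZero.infinite _
  -- the first part, with the relations over the constants
  have key : ∀ (n : ℕ) (p : Fin n → ℂ), ∃ Λ : Submodule ℚ ℂ, IsLarge (bound D n q s) Λ ∧
      ∀ r ≤ s, ∀ t : Fin r → ℂ, IndependentIn Λ t →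
        OTR Qbar D (Sum.elim (Sum.elim (curve L) θ) (Sum.elim (fun i => ℘[L] (p i))
          (Sum.elim p (fun i => zetaW L (p i))))) t := by
    intro n p
    obtain ⟨Λ, U, h1, h2, h3, h4, h5⟩ := tor ((Fin 7 ⊕ Fin q) ⊕ (Fin n ⊕ (Fin n ⊕ Fin n))) s D hD
      (Sum.elim (Sum.elim (curve L) θ) (Sum.elim (fun i => ℘[L] (p i))
          (Sum.elim p (fun i => zetaW L (p i))))) (Aff.mem _ (Sum.inl (Sum.inl 6)))
    refine ⟨Λ, ⟨h1, U, ?_, h3, ?_⟩, fun r hr t ht => h5 r hr t ht.1 ht.2⟩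
    · rw [h2]
      ext z
      exact Pool.Agent.Helper71.MLog.mem_span_logs z
    · refine h4.trans (le_of_eq ?_)
      have h6 : Fintype.card ((Fin 7 ⊕ Fin q) ⊕ (Fin n ⊕ (Fin n ⊕ Fin n))) = 7 + 3 * n + q := by
        simp only [Fintype.card_sum, Fintype.card_fin]
        ring
      rw [h6]
      rfl
  refine ⟨?_, ?_⟩
  · intro n p
    obtain ⟨Λ, hΛ, h1⟩ := key n p
    refine ⟨Λ, hΛ, fun r hr t ht => ⟨h1 r hr t ht, fun hp => ?_⟩⟩
    refine swap (OTR.extend (κ := Qbar) hp (h1 r hr t ht) ?_ ?_)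
    · rintro (i | i)
      · exact Aff.mem _ (Sum.inl i)
      · exact Aff.mem _ (Sum.inr (Sum.inl i))
    · intro i
      exact Aff.mem _ (Sum.inr (Sum.inr i))
  · intro h2 h3 α hα hm m
    set Θ : Fin 7 ⊕ Fin q → ℂ := Sum.elim (curve L) θ with hΘ
    have hω₁ : L.ω₁ ∈ Aff Qbar Θ := Aff.mem Θ (Sum.inl 2)
    have hω₂ : L.ω₂ ∈ Aff Qbar Θ := Aff.mem Θ (Sum.inl 3)
    have hη₁ : H667R3.eta L L.ω₁ ∈ Aff Qbar Θ := Aff.mem Θ (Sum.inl 4)
    have hη₂ : H667R3.eta L L.ω₂ ∈ Aff Qbar Θ := Aff.mem Θ (Sum.inl 5)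
    have hπ : (2 * Real.pi * Complex.I : ℂ) ∈ Aff Qbar Θ := Aff.mem Θ (Sum.inl 6)
    have hα0 : α ≠ 0 := by
      rintro rfl
      exact hα (by simp)
    obtain ⟨N, κ', hN, hκ, hrel⟩ := zt_mul h2 h3 hα0 hm
    have hαQ : α ∈ QB := mem_QB.2 (alg_of_mul hm)
    have hne : α - N / α ≠ 0 := sub_ne_zero.2 (ne_conj hα hN).symm
    set a₀ : ℂ := κ' / (α - N / α) with ha₀
    have ha₀Q : a₀ ∈ QB := div_mem hκ (sub_mem hαQ (div_mem (natCast_mem _ _) hαQ))
    have ha₀e : a₀ * (α - N / α) = κ' := div_mul_cancel₀ _ hne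
    obtain ⟨T, P, hT, hP, hmul, hfree⟩ := exists_final h2 h3 (EL_not_finite h2 h3) (MF.cm hα hm)
      (s := sB) (ρ := rB a₀) (by
        intro i
        cases i
        · exact zero_mem _
        · exact one_mem _) (by
        intro i
        cases i
        · exact one_mem _
        · exact neg_mem ha₀Q) (χ := chiB L) (chiB_semi h2 h3 hα hm hN hκ hrel ha₀e)
      (by omega : 1 ≤ D)
      (fun E₁ E₂ hE₁ hE₂ => gen_cm h2 h3 hα hm (MF.cm hα hm) ha₀Q D E₁ E₂ hE₁ hE₂)
      hπ hω₁ hω₂ hη₁ hη₂ m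
    refine ⟨P, ⟨hP.sum, hP.unique, hP.inf⟩, fun i β hβ x hx => hmul i β hβ x hx, ?_⟩
    intro j n p hp hpi
    obtain ⟨Λ, hΛ, h1⟩ := key n p
    refine ⟨Λ, hΛ, fun r hr t ht => ?_⟩
    have h4 := otr_cm ha₀Q (hfree j 0 Fin.elim0 n p (fun l => l.elim0) hp
      (fun b _ => funext fun l => l.elim0) hpi)
    have h8 : (fun i => zetaW L (p i)) = fun i => zt L (p i) := by
      funext i
      rw [zt_of_notMem (notMem_of (rat_indep hpi) i)]
      rfl
    have h5 : OTR Qbar D Θ (Sum.elim p (fun i => zetaW L (p i))) := by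
      rw [h8]
      exact h4.comp (f := Sum.inr) Sum.inr_injective
    refine swap (OTR.extend (κ := Qbar) h5 (h1 r hr t ht) ?_ ?_)
    · intro i
      exact Aff.mem _ (Sum.inl i)
    · intro i
      exact Aff.mem _ (Sum.inr (Sum.inr i))

end Pool.Agent.Results.MP_8da9ea_nt.ToricFiniteCodimension
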